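import Pool.Agent.Helper37.Mv.Defs
import Pool.Agent.Helper27.FM.Main3

/-!
# Project HMV (MP_6cbef8_nt), module Alg: the algebra of all tuples and its standard basis

PLAN. `basM_repr`: as `bas_repr` in `Pool/Agent/Helper27/FM/Main3.lean`. `continuous_RM`: as `continuous_RR` there.
-/

set_option autoImplicit false
open Matrix Module

namespace Pool.Agent.Helper37.Mv

open Pool.Agent.Helper27.FM

/-- the algebra of all tuples -/
abbrev AmbM (E : Type*) (ι : Type*) {J : Type*} (n : J → ℕ) : Type _ :=
  (ι → M2 E) × (∀ j : J, Matrix (Fin (n j)) (Fin (n j)) E)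

section

variable {E : Type*} [Field E] {G : Type*} [Group G] {ι J : Type*} {n : J → ℕ}

/-- the tuple as a homomorphism -/
def RM (V : ι → G →* GL (Fin 2) E) (T : ∀ j, G →* GL (Fin (n j)) E) : G →* AmbM E ι n where
  toFun g := ((fun i => (V i g : M2 E)),
    (fun j => (T j g : Matrix (Fin (n j)) (Fin (n j)) E)))
  map_one' := by
    simp only [map_one, Units.val_one]
    rfl
  map_mul' a b := by
    simp only [map_mul, Units.val_mul]
    rfl

/-- the nilpotents in the factors -/
def nilM (E : Type*) [Field E] (ι : Type*) [DecidableEq ι] {J : Type*} (n : J → ℕ)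
    (k : ι × Bool) : AmbM E ι n :=
  (Pi.single k.1 (if k.2 then single 0 1 1 else single 1 0 1), 0)

/-- the standard basis -/
noncomputable def basM (E : Type*) [Field E] (ι J : Type*) [Fintype ι] [Fintype J] (n : J → ℕ) :
    Module.Basis (Vars ι J n) E (AmbM E ι n) :=
  (Pi.basis fun _ : ι => Matrix.stdBasis E (Fin 2) (Fin 2)).prod
    (Pi.basis fun j : J => Matrix.stdBasis E (Fin (n j)) (Fin (n j)))

private theorem stdRepr {m : ℕ} (M : Matrix (Fin m) (Fin m) E) (i j : Fin m) :
    (Matrix.stdBasis E (Fin m) (Fin m)).repr M (i, j) = M i j := by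
  simp [Matrix.stdBasis]

theorem basM_repr [Fintype ι] [Fintype J] (X : AmbM E ι n) (v : Vars ι J n) :
    (basM E ι J n).repr X v = allEntries X.1 X.2 v := by
  unfold basM
  rcases v with ⟨i, a, c⟩ | ⟨j, a, c⟩
  · rw [Module.Basis.prod_repr_inl, Pi.basis_repr]
    exact stdRepr _ _ _
  · rw [Module.Basis.prod_repr_inr, Pi.basis_repr]
    exact stdRepr _ _ _

end

theorem continuous_RM {E : Type*} [NontriviallyNormedField E] {G : Type*} [Group G]
    [TopologicalSpace G] {ι J : Type*} {n : J → ℕ} {V : ι → G →* GL (Fin 2) E}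
    {T : ∀ j, G →* GL (Fin (n j)) E} (hV : ∀ i, Continuous (V i)) (hT : ∀ j, Continuous (T j)) :
    Continuous (RM V T) := by
  refine Continuous.prodMk ?_ ?_
  · exact continuous_pi fun i => Units.continuous_val.comp (hV i)
  · exact continuous_pi fun j => Units.continuous_val.comp (hT j)

end Pool.Agent.Helper37.Mv
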