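import Pool.Agent.Helper27.FM.Defs2

/-!
# Definitions: entries of several tuples of matrices, polynomial relations, independence
-/

set_option autoImplicit false
open Filter Topology

namespace Pool.Agent.Helper37.Mv

/-- The index set of the entries of matrices `x i` (`i : ι`) of size `2` and of matrices `z j`
(`j : J`) of size `n j`. -/
abbrev Vars (ι J : Type*) (n : J → ℕ) : Type _ :=
  (Σ _ : ι, Fin 2 × Fin 2) ⊕ (Σ j : J, Fin (n j) × Fin (n j))

/-- The entries of the `x i` and `z j`. -/
def allEntries {E : Type*} {ι J : Type*} {n : J → ℕ} (x : ι → Matrix (Fin 2) (Fin 2) E)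
    (z : ∀ j : J, Matrix (Fin (n j)) (Fin (n j)) E) : Vars ι J n → E
  | .inl a => x a.1 a.2.1 a.2.2
  | .inr a => z a.1 a.2.1 a.2.2

/-- The polynomial `P` is not zero at `(x, T g)` for some matrices `x i` with the determinants of
the `V i g`. -/
def NontrivialAt {E : Type*} [Field E] {G : Type*} [Group G] {ι J : Type*} {n : J → ℕ}
    (V : ι → G →* GL (Fin 2) E) (T : ∀ j, G →* GL (Fin (n j)) E)
    (P : MvPolynomial (Vars ι J n) E) (g : G) : Prop :=
  ∃ x : ι → Matrix (Fin 2) (Fin 2) E,
    (∀ i, (x i).det = (V i g : Matrix (Fin 2) (Fin 2) E).det) ∧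
      MvPolynomial.eval (allEntries x (fun j => T j g)) P ≠ 0

/-- The `V i` are independent of the `T j`: for every open subgroup `U` there is a neighbourhood
`W` of `1` such that for every `g` with `V i g ∈ W` and `det V i g = 1` for all `i` there is
`g' ∈ U` with `V i g' = V i g` for all `i` on which all `T j` are trivial. -/
def JointlyIndependent {p : ℕ} [Fact p.Prime] {E : Type*} [NontriviallyNormedField E]
    {G : Type*} [Group G] [TopologicalSpace G] {ι : Type*} (V : ι → G →* GL (Fin 2) E)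
    {J : Type*} {n : J → ℕ} (T : ∀ j, G →* GL (Fin (n j)) ℚ_[p]) : Prop :=
  ∀ U : Subgroup G, IsOpen (U : Set G) → ∃ W ∈ 𝓝 (1 : Matrix (Fin 2) (Fin 2) E),
    ∀ g, (∀ i, (V i g : Matrix (Fin 2) (Fin 2) E) ∈ W) →
      (∀ i, (V i g : Matrix (Fin 2) (Fin 2) E).det = 1) →
      ∃ g' ∈ U, (∀ i, V i g' = V i g) ∧ ∀ j, T j g' = 1

end Pool.Agent.Helper37.Mv
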