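import Pool.Agent.Helper37.Mv.Defs
import Pool.Agent.Helper37.Fd.MainD
import Pool.Agent.Helper37.Af.Main

/-!
# Project HMV (MP_6cbef8_nt): proof of the dichotomy for several representations
-/

set_option autoImplicit false
open Filter Topology

namespace Pool.Agent.Helper37.Mv

open Pool.Agent.Helper27.FM Pool.Agent.Helper37.Fd Pool.Agent.Helper37.Af Pool.Agent.Helper37.Kr
  Pool.Agent.Helper37.Dc

theorem dichotomyM (p : ℕ) [hp : Fact p.Prime]
    {E : Type*} [NontriviallyNormedField E] [IsUltrametricDist E] [NormedAlgebra ℚ_[p] E]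
    [FiniteDimensional ℚ_[p] E] [IsGalois ℚ_[p] E]
    {G : Type*} [Group G] [TopologicalSpace G] [IsTopologicalGroup G] [CompactSpace G]
    [TotallyDisconnectedSpace G]
    {ι : Type*} [Finite ι] (V : ι → G →* GL (Fin 2) E) (hV : ∀ i, Continuous (V i))
    (hirr : ∀ i, StronglyIrreducible (V i))
    (hne : ∀ i k, i ≠ k → ∀ τ : E ≃ₐ[ℚ_[p]] E, ¬ IsTwist (V i) (conjugate τ (V k)))
    {J : Type*} [Finite J] (n : J → ℕ) (T : ∀ j, G →* GL (Fin (n j)) ℚ_[p])
    (hT : ∀ j, Continuous (T j))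
    (h : ∀ i j, ¬ AdOccurs (V i) (baseChange E (T j)) ∨ (Semisimple (baseChange E (T j)) ∧
      IdempotentGenerated p (V i) (baseChange E (T j)))) :
    List.TFAE [∃ i j, PotentiallyContained (V i) (baseChange E (T j)),
      ∃ i, ∃ U : Subgroup G, IsOpen (U : Set G) ∧ ∀ g ∈ U, (∀ k, k ≠ i → V k g = 1) →
        (∀ j, T j g = 1) → ∃ c : E,
          (V i g : Matrix (Fin 2) (Fin 2) E) = c • (1 : Matrix (Fin 2) (Fin 2) E),
      ¬ JointlyIndependent V T] := by
  have : CompleteSpace E := FiniteDimensional.complete ℚ_[p] E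
  have : CharZero E := charZeroE p
  have hbcc : ∀ j, Continuous (baseChange E (T j)) := fun j => continuous_bc p (hT j)
  tfae_have 1 → 2 := by
    rintro ⟨i, j, U, hU, a, ha, hUa⟩
    refine ⟨i, U, hU, fun g hg _ h0 => ⟨1, ?_⟩⟩
    have h1 := hUa g hg
    have h2 : baseChange E (T j) g = 1 := by
      change Matrix.GeneralLinearGroup.map (algebraMap ℚ_[p] E) (T j g) = 1
      rw [h0 j, map_one]
    rw [h2, Units.val_one, Matrix.one_mul] at h1
    rw [one_smul]
    apply Matrix.ext_of_mulVec_single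
    intro k
    apply ha
    rw [Matrix.mulVec_mulVec, ← h1, Matrix.one_mulVec]
  tfae_have 2 → 3 := by
    rintro ⟨i, U, hU, hUs⟩ hI
    obtain ⟨W, hW, hWf⟩ := hI U hU
    -- `V i` is independent of the other `V k`
    have hd := (dichotomy p (V i) (hV i) (hirr i) (fun k : {k // k ≠ i} => V k)
      (fun k => hV k) (fun j : Fin 0 => j.elim0) (fun j : Fin 0 => j.elim0)
      (fun j => j.elim0) (fun j => j.elim0)).2
    have hI2 : Fd.Independent (p := p) (V i) (fun k : {k // k ≠ i} => V k)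
        (fun j : Fin 0 => (j.elim0 : G →* GL (Fin ((fun j : Fin 0 => (j.elim0 : ℕ)) j)) ℚ_[p])) := by
      by_contra hcon
      obtain ⟨k, τ, hk⟩ := hd.mpr hcon
      exact hne i k (Ne.symm k.2) τ hk
    obtain ⟨W', hW', hWf'⟩ := hI2 ⊤ isOpen_univ
    obtain ⟨g₀, hg₀, hdet₀, hns₀⟩ := exists_nonscalar (hV i) (hirr i) (inter_mem hW hW')
    obtain ⟨g, -, hg1, hg2, -⟩ := hWf' g₀ hg₀.2 hdet₀
    have hW1 : (1 : Matrix (Fin 2) (Fin 2) E) ∈ W := mem_of_mem_nhds hW
    obtain ⟨g', hg'U, hg'V, hg'T⟩ := hWf g (by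
      intro k
      by_cases hk : k = i
      · subst hk
        rw [hg1]
        exact hg₀.1
      · rw [hg2 ⟨k, hk⟩, Units.val_one]
        exact hW1) (by
      intro k
      by_cases hk : k = i
      · subst hk
        rw [hg1]
        exact hdet₀
      · rw [hg2 ⟨k, hk⟩, Units.val_one, Matrix.det_one])
    obtain ⟨c, hc⟩ := hUs g' hg'U (fun k hk => by rw [hg'V k]; exact hg2 ⟨k, hk⟩) hg'T
    exact hns₀ c (by rw [← hg1, ← hg'V i, hc])
  tfae_have 3 → 1 := by
    intro hnI
    by_contra hno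
    push Not at hno
    apply hnI
    have hocc : ∀ i j, ¬ AdOccurs (V i) (baseChange E (T j)) := by
      intro i j hij
      rcases h i j with h1 | ⟨h1, h2⟩
      · exact h1 hij
      · exact hno i j (contained_of_adOccurs p (hV i) (hirr i) (hbcc j) h1 h2 hij)
    intro U hU
    have hI : ∀ i, Fd.Independent (V i) (fun k : {k // k ≠ i} => V k) T := by
      intro i
      have hd := (dichotomy p (V i) (hV i) (hirr i) (fun k : {k // k ≠ i} => V k)
        (fun k => hV k) n T hT (hocc i)).2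
      by_contra hcon
      obtain ⟨k, τ, hk⟩ := hd.mpr hcon
      exact hne i k (Ne.symm k.2) τ hk
    choose W hW hWf using fun i => hI i U hU
    refine ⟨⋂ i, W i, (Filter.iInter_mem).mpr hW, fun g hg hdet => ?_⟩
    choose g₁ hg₁U hg₁V hg₁ρ hg₁T using fun i =>
      hWf i g (Set.mem_iInter.mp (hg i) i) (hdet i)
    classical
    have : Fintype ι := Fintype.ofFinite ι
    have key : ∀ s : Finset ι, ∃ g' ∈ U, (∀ i ∈ s, V i g' = V i g) ∧ (∀ i ∉ s, V i g' = 1) ∧
        ∀ j, T j g' = 1 := by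
      intro s
      induction s using Finset.induction_on with
      | empty => exact ⟨1, U.one_mem, by simp, fun i _ => map_one _, fun j => map_one _⟩
      | insert a s ha ih =>
        obtain ⟨g', hg'U, h1, h2, h3⟩ := ih
        refine ⟨g' * g₁ a, U.mul_mem hg'U (hg₁U a), ?_, ?_, ?_⟩
        · intro i hi
          rw [Finset.mem_insert] at hi
          rcases hi with rfl | hi
          · rw [map_mul, h2 i ha, one_mul, hg₁V i]
          · have hia : i ≠ a := fun e => ha (e ▸ hi)
            rw [map_mul, h1 i hi, hg₁ρ a ⟨i, hia⟩, mul_one]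
        · intro i hi
          rw [Finset.mem_insert, not_or] at hi
          rw [map_mul, h2 i hi.2, hg₁ρ a ⟨i, hi.1⟩, mul_one]
        · intro j
          rw [map_mul, h3 j, hg₁T a j, mul_one]
    obtain ⟨g', h0, h1, -, h3⟩ := key Finset.univ
    exact ⟨g', h0, fun i => h1 i (Finset.mem_univ i), h3⟩
  tfae_finish

end Pool.Agent.Helper37.Mv
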