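import Pool.Agent.Helper37.Mv.Alg

/-!
# Project HMV (MP_6cbef8_nt), module Orb: zeros of infinite order along all nilpotents are zeros on the orbit of `∏ SL_2`

PLAN. First for one factor: if `InfVan b (range (nilM E ι n)) X Q` and `u : M2 E`, `u.det = 1`, then `InfVan b (range (nilM E ι n)) ((Pi.mulSingle i u, 1) * X) Q`: copy the proof of `infVan_sl` (`Pool/Agent/Helper27/FM/Main3.lean`), with `1 + t • nilM E ι n (i, true) = (Pi.mulSingle i !![1, t; 0, 1], 1)`,
`1 + t • nilM E ι n (i, false) = (Pi.mulSingle i !![1, 0; t, 1], 1)`, `nilM k * nilM k = 0`, `Pi.mulSingle_mul` (`Pi.mulSingle i (a * b) = Pi.mulSingle i a * Pi.mulSingle i b`), and `InfVan.step`. Then by induction over a finset `s` of indices: for `u : ι → M2 E` with all determinants `1`, `InfVan` holds at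
`((fun i => if i ∈ s then u i else 1), 1) * X`; take `s = univ`.
-/

set_option autoImplicit false
open Matrix Module

namespace Pool.Agent.Helper37.Mv

open Pool.Agent.Helper27.FM

section aux

variable {E : Type*} [Field E] {ι J : Type*} [DecidableEq ι] {n : J → ℕ}

/-- the embedding of one factor -/
private def em (n : J → ℕ) (i : ι) (u : M2 E) : AmbM E ι n := (Pi.mulSingle i u, 1)

private theorem em_mul (i : ι) (a b : M2 E) : em n i a * em n i b = em n i (a * b) := by
  unfold em
  refine Prod.ext ?_ ?_
  · exact (Pi.mulSingle_mul (f := fun _ : ι => M2 E) i a b).symm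
  · exact one_mul _

private theorem nil_sq (k : ι × Bool) : nilM E ι n k * nilM E ι n k = 0 := by
  obtain ⟨i, k⟩ := k
  unfold nilM
  refine Prod.ext ?_ ?_
  · show (Pi.single i _ : ι → M2 E) * Pi.single i _ = 0
    rw [← Pi.single_mul]
    have h : (if k then (single 0 1 1 : M2 E) else single 1 0 1) *
        (if k then (single 0 1 1 : M2 E) else single 1 0 1) = 0 := by
      cases k <;> simp
    exact (congrArg (Pi.single i) h).trans (Pi.single_zero i)
  · exact mul_zero _

private theorem em_of (i : ι) (t : E) (a u : M2 E) (h : 1 + t • a = u) :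
    (1 + t • ((Pi.single i a, 0) : AmbM E ι n)) = em n i u := by
  unfold em
  refine Prod.ext ?_ ?_
  · show (1 : ι → M2 E) + t • (Pi.single i a : ι → M2 E) = (Pi.mulSingle i u : ι → M2 E)
    funext j
    by_cases hj : j = i
    · subst hj
      rw [Pi.mulSingle_eq_same, Pi.add_apply, Pi.smul_apply, Pi.single_eq_same, Pi.one_apply]
      exact h
    · rw [Pi.mulSingle_eq_of_ne hj, Pi.add_apply, Pi.smul_apply, Pi.single_eq_of_ne hj, smul_zero,
        add_zero, Pi.one_apply]
  · show (1 : ∀ j : J, Matrix (Fin (n j)) (Fin (n j)) E) + t • 0 = 1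
    rw [smul_zero, add_zero]

private theorem em_true (i : ι) (t : E) :
    (1 + t • nilM E ι n (i, true)) = em n i !![1, t; 0, 1] := by
  refine em_of i t (single 0 1 1) _ ?_
  apply ext2 <;> simp [Matrix.single]

private theorem em_false (i : ι) (t : E) :
    (1 + t • nilM E ι n (i, false)) = em n i !![1, 0; t, 1] := by
  refine em_of i t (single 1 0 1) _ ?_
  apply ext2 <;> simp [Matrix.single]

variable [CharZero E] {ν : Type*} [Fintype ν] (b : Module.Basis ν E (AmbM E ι n))

private theorem one_factor {X : AmbM E ι n} {Q : MvPolynomial ν E} (i : ι)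
    (h : InfVan b (Set.range (nilM E ι n)) X Q) (u : M2 E) (hu : u.det = 1) :
    InfVan b (Set.range (nilM E ι n)) (em n i u * X) Q := by
  have hT : ∀ (t : E) (Y : AmbM E ι n), InfVan b (Set.range (nilM E ι n)) Y Q →
      InfVan b (Set.range (nilM E ι n)) (em n i !![1, t; 0, 1] * Y) Q := by
    intro t Y hY
    rw [← em_true]
    exact hY.step b (nil_sq (i, true)) ⟨(i, true), rfl⟩ t
  have hF : ∀ (t : E) (Y : AmbM E ι n), InfVan b (Set.range (nilM E ι n)) Y Q →
      InfVan b (Set.range (nilM E ι n)) (em n i !![1, 0; t, 1] * Y) Q := by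
    intro t Y hY
    rw [← em_false]
    exact hY.step b (nil_sq (i, false)) ⟨(i, false), rfl⟩ t
  have main : ∀ (u : M2 E), u.det = 1 → u 1 0 ≠ 0 →
      InfVan b (Set.range (nilM E ι n)) (em n i u * X) Q := by
    intro u hu hc
    have h1 := hT ((u 0 0 - 1) / u 1 0) _ (hF (u 1 0) _ (hT ((u 1 1 - 1) / u 1 0) _ h))
    rw [← mul_assoc, ← mul_assoc, em_mul, em_mul] at h1
    have e : (!![1, (u 0 0 - 1) / u 1 0; 0, 1] : M2 E) * !![1, 0; u 1 0, 1] *
        !![1, (u 1 1 - 1) / u 1 0; 0, 1] = u := by
      rw [det_def] at hu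
      apply ext2
      · simp; field_simp; ring
      · simp; field_simp; linear_combination hu
      · simp
      · simp; field_simp; ring
    rw [e] at h1
    exact h1
  by_cases hc : u 1 0 = 0
  · have hu' := hu
    rw [det_def, hc, mul_zero, sub_zero] at hu
    have ha : u 0 0 ≠ 0 := by
      intro h0; rw [h0, zero_mul] at hu; exact zero_ne_one hu
    have h1 := main ((!![1, 0; 1, 1] : M2 E) * u) (by
      rw [Matrix.det_mul, hu', mul_one]; simp [Matrix.det_fin_two_of]) (by
      simp [Matrix.mul_apply, Fin.sum_univ_two, hc, ha])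
    have h2 := hF (-1) _ h1
    rw [← mul_assoc, em_mul, ← Matrix.mul_assoc] at h2
    have e : (!![1, 0; -1, 1] : M2 E) * !![1, 0; 1, 1] = 1 := by
      apply ext2 <;> simp
    rw [e, one_mul] at h2
    exact h2
  · exact main u hu hc

end aux

theorem infVan_prod {E : Type*} [Field E] [CharZero E] {ι J : Type*} [Fintype ι] [DecidableEq ι]
    {n : J → ℕ} {ν : Type*} [Fintype ν] (b : Module.Basis ν E (AmbM E ι n)) {X : AmbM E ι n}
    {Q : MvPolynomial ν E} (h : InfVan b (Set.range (nilM E ι n)) X Q) (u : ι → M2 E)
    (hu : ∀ i, (u i).det = 1) :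
    InfVan b (Set.range (nilM E ι n)) (((u, 1) : AmbM E ι n) * X) Q := by
  classical
  have key : ∀ s : Finset ι, InfVan b (Set.range (nilM E ι n))
      (((fun i => if i ∈ s then u i else 1, 1) : AmbM E ι n) * X) Q := by
    intro s
    induction s using Finset.induction_on with
    | empty =>
      have e : ((fun i => if i ∈ (∅ : Finset ι) then u i else 1, 1) : AmbM E ι n) = 1 := by
        refine Prod.ext (funext fun i => ?_) rfl
        show (if i ∈ (∅ : Finset ι) then u i else 1) = (1 : M2 E)
        rw [if_neg (Finset.notMem_empty i)]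
      rw [e, one_mul]
      exact h
    | insert j s hj ih =>
      have h1 := one_factor b j ih (u j) (hu j)
      have e : em n j (u j) * ((fun i => if i ∈ s then u i else 1, 1) : AmbM E ι n) =
          ((fun i => if i ∈ insert j s then u i else 1, 1) : AmbM E ι n) := by
        refine Prod.ext (funext fun i => ?_) (one_mul _)
        show (Pi.mulSingle j (u j) : ι → M2 E) i * (if i ∈ s then u i else 1) =
          if i ∈ insert j s then u i else 1
        by_cases hi : i = j
        · subst hi
          rw [Pi.mulSingle_eq_same, if_neg hj, if_pos (Finset.mem_insert_self _ _), mul_one]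
        · rw [Pi.mulSingle_eq_of_ne hi, one_mul]
          have h2 : i ∈ insert j s ↔ i ∈ s := by
            rw [Finset.mem_insert]
            exact ⟨fun h' => h'.resolve_left hi, Or.inr⟩
          simp only [h2]
      rw [← mul_assoc, e] at h1
      exact h1
  have h1 := key Finset.univ
  have e : ((fun i => if i ∈ (Finset.univ : Finset ι) then u i else 1, 1) : AmbM E ι n) =
      (u, 1) := by
    refine Prod.ext (funext fun i => ?_) rfl
    show (if i ∈ (Finset.univ : Finset ι) then u i else 1) = u i
    rw [if_pos (Finset.mem_univ i)]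
  rw [e] at h1
  exact h1

end Pool.Agent.Helper37.Mv
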