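import Pool.Agent.Helper37.Fc.PolyFun
import Pool.Agent.Helper37.Mv.Defs

/-!
# Project HMV (MP_6cbef8_nt), module Poly: polynomial functions on the group have few translates

As `exists_polyvar` (`Pool/Agent/Helper37/Fd/Var.lean`) with the index set `Vars ι J n` and
`allEntries` of `Mv/Defs.lean`.
-/

set_option autoImplicit false
open Matrix

namespace Pool.Agent.Helper37.Mv

open Pool.Agent.Helper37.Fc

open MvPolynomial in
private theorem mvp_degree {K σ τ : Type*} [Field K] (s : σ → MvPolynomial τ K)
    (hs : ∀ v, (s v).totalDegree ≤ 1) (P : MvPolynomial σ K) :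
    (bind₁ s P).totalDegree ≤ P.totalDegree := by
  rw [bind₁, aeval_def, eval₂_eq]
  refine totalDegree_finsetSum_le ?_
  intro m hm
  refine (totalDegree_mul _ _).trans ?_
  have h1 : (algebraMap K (MvPolynomial τ K) (coeff m P)).totalDegree = 0 := totalDegree_C _
  rw [h1, zero_add]
  refine (totalDegree_finsetProd _ _).trans ?_
  calc ∑ i ∈ m.support, (s i ^ m i).totalDegree ≤ ∑ i ∈ m.support, m i := by
        refine Finset.sum_le_sum ?_
        intro i _
        refine (totalDegree_pow _ _).trans ?_
        calc m i * (s i).totalDegree ≤ m i * 1 := Nat.mul_le_mul_left _ (hs i)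
          _ = m i := mul_one _
    _ ≤ P.totalDegree := le_totalDegree hm

open MvPolynomial in
private theorem mvp_eval {K σ τ : Type*} [Field K] (s : σ → MvPolynomial τ K) (x : τ → K)
    (P : MvPolynomial σ K) : eval x (bind₁ s P) = eval (fun v => eval x (s v)) P :=
  eval₂Hom_bind₁ _ _ _ _

/-- the linear substitution of a translation -/
private noncomputable def mvps {K : Type*} [Field K] {ι J : Type*} {n : J → ℕ}
    (y : ι → Matrix (Fin 2) (Fin 2) K)
    (z : ∀ j : J, Matrix (Fin (n j)) (Fin (n j)) K) :
    Vars ι J n → MvPolynomial (Vars ι J n) K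
  | .inl a => ∑ c, MvPolynomial.C (y a.1 c a.2.2) *
      MvPolynomial.X (.inl ⟨a.1, (a.2.1, c)⟩)
  | .inr a => ∑ c, MvPolynomial.C (z a.1 c a.2.2) *
      MvPolynomial.X (.inr ⟨a.1, (a.2.1, c)⟩)

open MvPolynomial in
private theorem mvps_term {K τ : Type*} [Field K] (c : K) (v : τ) :
    (C c * X v : MvPolynomial τ K).totalDegree ≤ 1 := by
  refine (totalDegree_mul _ _).trans ?_
  rw [totalDegree_C, totalDegree_X]

private theorem mvps_degree {K : Type*} [Field K] {ι J : Type*} {n : J → ℕ}
    (y : ι → Matrix (Fin 2) (Fin 2) K)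
    (z : ∀ j : J, Matrix (Fin (n j)) (Fin (n j)) K) (v : Vars ι J n) :
    (mvps y z v).totalDegree ≤ 1 := by
  rcases v with a | a
  · refine MvPolynomial.totalDegree_finsetSum_le ?_
    intro c _
    exact mvps_term _ _
  · refine MvPolynomial.totalDegree_finsetSum_le ?_
    intro c _
    exact mvps_term _ _

private theorem mvps_eval {K : Type*} [Field K] {ι J : Type*} {n : J → ℕ}
    (y y' : ι → Matrix (Fin 2) (Fin 2) K)
    (z z' : ∀ j : J, Matrix (Fin (n j)) (Fin (n j)) K) (v : Vars ι J n) :
    MvPolynomial.eval (allEntries y' z') (mvps y z v) =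
      allEntries (fun i => y' i * y i) (fun j => z' j * z j) v := by
  rcases v with a | a
  · simp only [mvps, map_sum, map_mul, MvPolynomial.eval_C, MvPolynomial.eval_X, allEntries,
      Matrix.mul_apply]
    exact Finset.sum_congr rfl fun c _ => mul_comm _ _
  · simp only [mvps, map_sum, map_mul, MvPolynomial.eval_C, MvPolynomial.eval_X, allEntries,
      Matrix.mul_apply]
    exact Finset.sum_congr rfl fun c _ => mul_comm _ _

private theorem mvp_cont {E : Type*} [NontriviallyNormedField E] {G : Type*} [Group G]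
    [TopologicalSpace G] {ι J : Type*} {n : J → ℕ} {V : ι → G →* GL (Fin 2) E}
    {T : ∀ j, G →* GL (Fin (n j)) E} (hV : ∀ i, Continuous (V i))
    (hT : ∀ j, Continuous (T j)) :
    Continuous fun g : G => (allEntries (fun i => (V i g : Matrix (Fin 2) (Fin 2) E))
      (fun j => (T j g : Matrix (Fin (n j)) (Fin (n j)) E)) : Vars ι J n → E) := by
  refine continuous_pi ?_
  intro v
  rcases v with a | a
  · exact (Units.continuous_val.comp (hV a.1)).matrix_elem a.2.1 a.2.2
  · exact (Units.continuous_val.comp (hT a.1)).matrix_elem a.2.1 a.2.2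

theorem exists_polym {E : Type*} [NontriviallyNormedField E] [IsUltrametricDist E]
    {G : Type*} [Group G] [TopologicalSpace G] [IsTopologicalGroup G] [CompactSpace G]
    {ι J : Type*} [Finite ι] [Finite J] {n : J → ℕ} {V : ι → G →* GL (Fin 2) E}
    {T : ∀ j, G →* GL (Fin (n j)) E} (hV : ∀ i, Continuous (V i)) (hT : ∀ j, Continuous (T j))
    (d : ℕ) (P : MvPolynomial (Vars ι J n) E) (hP : P.totalDegree ≤ d) :
    ∃ (f : C(G, E)) (S : Submodule E C(G, E)), FiniteDimensional E S ∧
      Module.finrank E S ≤ Module.finrank E (MvPolynomial.restrictTotalDegree (Vars ι J n) E d) ∧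
      (∀ h, rt h f ∈ S) ∧
      ∀ g, f g = MvPolynomial.eval (allEntries (fun i => (V i g : Matrix (Fin 2) (Fin 2) E))
        (fun j => T j g)) P := by
  have he := mvp_cont (n := n) hV hT
  let pf : MvPolynomial (Vars ι J n) E →ₗ[E] C(G, E) :=
    { toFun := fun Q => ⟨fun g => MvPolynomial.eval
          (allEntries (fun i => (V i g : Matrix (Fin 2) (Fin 2) E)) (fun j => T j g)) Q,
          (MvPolynomial.continuous_eval Q).comp he⟩
      map_add' := by
        intro Q Q'
        ext g
        simp
      map_smul' := by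
        intro c Q
        ext g
        simp [MvPolynomial.smul_eval] }
  have hpf : ∀ Q g, pf Q g = MvPolynomial.eval
      (allEntries (fun i => (V i g : Matrix (Fin 2) (Fin 2) E)) (fun j => T j g)) Q :=
    fun Q g => rfl
  refine ⟨pf P, (MvPolynomial.restrictTotalDegree _ E d).map pf, ?_, ?_, ?_, ?_⟩
  · infer_instance
  · exact Submodule.finrank_map_le _ _
  · intro h
    refine Submodule.mem_map.2 ⟨MvPolynomial.bind₁ (mvps
      (fun i => (V i h : Matrix (Fin 2) (Fin 2) E))
      (fun j => (T j h : Matrix (Fin (n j)) (Fin (n j)) E))) P, ?_, ?_⟩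
    · rw [MvPolynomial.mem_restrictTotalDegree]
      exact (mvp_degree _ (mvps_degree _ _) P).trans hP
    · ext g
      rw [hpf, mvp_eval]
      have e1 : (rt h (pf P)) g = pf P (g * h) := rfl
      rw [e1, hpf]
      congr 2
      funext v
      rw [mvps_eval]
      simp only [map_mul, Units.val_mul]
  · intro g
    rfl

end Pool.Agent.Helper37.Mv
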