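import Pool.Agent.Helper37.Mv.Alg
import Pool.Agent.Helper37.Fd.Span
import Pool.Agent.Helper27.FM.Twist

/-!
# Project HMV (MP_6cbef8_nt), module Span: the nilpotents of all factors lie in the span of the logarithms

For `k = (i, ε)` the theorem `sl_in_span` is applied to `V i`, the other `V k` and the `T j`; the algebras are identified by `phiM`.
-/

set_option autoImplicit false
open Matrix Module Filter Topology

namespace Pool.Agent.Helper37.Mv

open Pool.Agent.Helper27.FM Pool.Agent.Helper37.Fd

/-- the reordering of the factors -/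
private def phiM (E : Type*) [Field E] (ι : Type*) [DecidableEq ι] {J : Type*} (n : J → ℕ)
    (i : ι) : Amb3 E {k : ι // k ≠ i} n →ₐ[E] AmbM E ι n where
  toFun X := ((fun k => if h : k = i then X.1 else X.2.1 ⟨k, h⟩), X.2.2)
  map_one' := by
    refine Prod.ext ?_ rfl
    funext k
    by_cases h : k = i
    · simp [h]
    · simp [h]
  map_mul' X Y := by
    refine Prod.ext ?_ rfl
    funext k
    by_cases h : k = i
    · simp [h]
    · simp [h]
  map_zero' := by
    refine Prod.ext ?_ rfl
    funext k
    by_cases h : k = i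
    · simp [h]
    · simp [h]
  map_add' X Y := by
    refine Prod.ext ?_ rfl
    funext k
    by_cases h : k = i
    · simp [h]
    · simp [h]
  commutes' c := by
    refine Prod.ext ?_ rfl
    funext k
    by_cases h : k = i
    · simp [h]
    · simp [h]

private theorem phiM_apply (E : Type*) [Field E] (ι : Type*) [DecidableEq ι] {J : Type*}
    (n : J → ℕ) (i : ι) (X : Amb3 E {k : ι // k ≠ i} n) :
    phiM E ι n i X = ((fun k => if h : k = i then X.1 else X.2.1 ⟨k, h⟩), X.2.2) := rfl

private theorem continuous_phiM (E : Type*) [NontriviallyNormedField E] (ι : Type*)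
    [DecidableEq ι] {J : Type*} (n : J → ℕ) (i : ι) : Continuous (phiM E ι n i) := by
  have h : (phiM E ι n i : Amb3 E {k : ι // k ≠ i} n → AmbM E ι n) =
      fun X => ((fun k => if h : k = i then X.1 else X.2.1 ⟨k, h⟩), X.2.2) := rfl
  rw [h]
  refine Continuous.prodMk (continuous_pi fun k => ?_) (continuous_snd.comp continuous_snd)
  by_cases hk : k = i
  · simp only [hk, dif_pos]
    exact continuous_fst
  · simp only [hk, dif_neg, not_false_eq_true]
    exact (continuous_apply _).comp (continuous_fst.comp continuous_snd)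

theorem nilM_mem (p : ℕ) [hp : Fact p.Prime] {E : Type*} [NontriviallyNormedField E]
    [IsUltrametricDist E] [CompleteSpace E] [NormedAlgebra ℚ_[p] E] {G : Type*} [Group G]
    [TopologicalSpace G] [IsTopologicalGroup G] [CompactSpace G] [TotallyDisconnectedSpace G]
    {ι J : Type*} [Finite ι] [DecidableEq ι] [Finite J] {n : J → ℕ} {V : ι → G →* GL (Fin 2) E}
    {T : ∀ j, G →* GL (Fin (n j)) E} (hV : ∀ i, Continuous (V i)) (hirr : ∀ i, StrIrr (V i))
    (hne : ∀ i k, i ≠ k → ¬ IsTwist (V i) (V k)) (hocc : ∀ i j, ¬ AdOccurs (V i) (T j))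
    {U : Subgroup G} (hU : U.Normal) (hUo : IsOpen (U : Set G))
    (hs : ∀ x ∈ U,
      (∀ k i j, ‖((V k x : M2 E) - 1) i j‖ ≤ (p : ℝ)⁻¹ ^ 2) ∧
      (∀ k i j, ‖((T k x : Matrix (Fin (n k)) (Fin (n k)) E) - 1) i j‖ ≤ (p : ℝ)⁻¹ ^ 2))
    (k : ι × Bool) : nilM E ι n k ∈ ASp E p (RM V T) U := by
  obtain ⟨i, ε⟩ := k
  rcases sl_in_span p (V := V i) (ρ := fun k : {k : ι // k ≠ i} => V k) (σ := T) (hV i) (hirr i)
    (hocc i) hU hUo (fun x hx => ⟨(hs x hx).1 i, fun k => (hs x hx).1 k, (hs x hx).2⟩) with
    ⟨k, hh, hk⟩ | hfull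
  · exact absurd (isTwist_of (hV i) (hV k) hk) (hne i k (fun h => k.2 h.symm))
  · have h1 : ((if ε then single 0 1 1 else single 1 0 1 : M2 E)).trace = 0 := by
      cases ε <;> simp
    have h2 := ASp_map p (phiM E ι n i) (continuous_phiM E ι n i) _ (hfull _ h1)
    have h3 : ((phiM E ι n i : Amb3 E {k : ι // k ≠ i} n →* AmbM E ι n)).comp
        (RR (V i) (fun k : {k : ι // k ≠ i} => V k) T) = RM V T := by
      refine MonoidHom.ext fun g => ?_
      refine Prod.ext ?_ rfl
      funext k
      show (if h : k = i then (V i g : M2 E) else (V (⟨k, h⟩ : {k : ι // k ≠ i}) g : M2 E)) = V k g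
      by_cases h : k = i
      · rw [dif_pos h, h]
      · rw [dif_neg h]
    rw [h3] at h2
    have h4 : phiM E ι n i ((if ε then single 0 1 1 else single 1 0 1 : M2 E), (0, 0)) =
        nilM E ι n (i, ε) := by
      rw [phiM_apply]
      unfold nilM
      refine Prod.ext ?_ rfl
      funext k
      show (if h : k = i then (if ε then single 0 1 1 else single 1 0 1 : M2 E)
        else (0 : {k : ι // k ≠ i} → M2 E) ⟨k, h⟩) =
        (Pi.single i (if ε then single 0 1 1 else single 1 0 1 : M2 E) : ι → M2 E) k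
      by_cases h : k = i
      · rw [dif_pos h]
        subst h
        rw [Pi.single_eq_same]
      · rw [dif_neg h, Pi.single_eq_of_ne h]
        rfl
    rw [h4] at h2
    exact h2

end Pool.Agent.Helper37.Mv
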