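import Pool.Agent.Helper37.Mv.Orb
import Pool.Agent.Helper37.Mv.Span

/-!
# Project HMV (MP_6cbef8_nt): no nontrivial relations between independent representations
-/

set_option autoImplicit false
open Matrix Module Filter Topology MeasureTheory

namespace Pool.Agent.Helper37.Mv

open Pool.Agent.Helper27.FM Pool.Agent.Helper37.Fd

theorem no_relation (p : ℕ) [hp : Fact p.Prime] {E : Type*} [NontriviallyNormedField E]
    [IsUltrametricDist E] [CompleteSpace E] [NormedAlgebra ℚ_[p] E] {G : Type*} [Group G]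
    [TopologicalSpace G] [IsTopologicalGroup G] [CompactSpace G] [TotallyDisconnectedSpace G]
    [MeasurableSpace G] [BorelSpace G] (μ : Measure G) [μ.IsHaarMeasure]
    {ι J : Type*} [Finite ι] [Finite J] {n : J → ℕ} {V : ι → G →* GL (Fin 2) E}
    {T : ∀ j, G →* GL (Fin (n j)) E} (hV : ∀ i, Continuous (V i))
    (hirr : ∀ i, StronglyIrreducible (V i)) (hne : ∀ i k, i ≠ k → ¬ IsTwist (V i) (V k))
    (hT : ∀ j, Continuous (T j)) (hocc : ∀ i j, ¬ AdOccurs (V i) (T j))
    (P : MvPolynomial (Vars ι J n) E) :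
    μ {g | MvPolynomial.eval (allEntries (fun i => (V i g : Matrix (Fin 2) (Fin 2) E))
      (fun j => T j g)) P = 0 ∧ NontrivialAt V T P g} = 0 := by
  classical
  have : CharZero E := charZeroE p
  have : Fintype ι := Fintype.ofFinite ι
  have : Fintype J := Fintype.ofFinite J
  -- the case of no `V i`
  rcases isEmpty_or_nonempty ι with hι | ⟨⟨i₀⟩⟩
  · have h0 : {g | MvPolynomial.eval (allEntries (fun i => (V i g : Matrix (Fin 2) (Fin 2) E))
      (fun j => T j g)) P = 0 ∧ NontrivialAt V T P g} = ∅ := by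
      rw [Set.eq_empty_iff_forall_notMem]
      rintro g ⟨h1, x, -, h2⟩
      have e : x = fun i => (V i g : Matrix (Fin 2) (Fin 2) E) := funext fun i => hι.elim i
      rw [e] at h2
      exact h2 h1
    rw [h0, measure_empty]
  obtain ⟨U, hU, hUo, hs⟩ := exists_small3 p (hV i₀) hV hT
  have hnil : ∀ k, nilM E ι n k ∈ ASp E p (RM V T) U :=
    nilM_mem p hV (fun i => (strIrr_iff _).mp (hirr i)) hne hocc hU hUo
      (fun x hx => ⟨(hs x hx).2.1, (hs x hx).2.2⟩)
  have hev : ∀ X : AmbM E ι n, ev (basM E ι J n) X P =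
      MvPolynomial.eval (allEntries X.1 X.2) P := by
    intro X
    have e : (fun v => (basM E ι J n).repr X v) = allEntries X.1 X.2 := by
      funext v
      exact basM_repr X v
    unfold ev
    rw [e, MvPolynomial.aeval_eq_eval]
  have hae := ae_infVan p (basM E ι J n) μ (continuous_RM hV hT) hnil P
  rw [ae_iff] at hae
  refine measure_mono_null ?_ hae
  rintro g ⟨h0, x, hx, hx0⟩
  change ¬ (ev (basM E ι J n) (RM V T g) P = 0 → InfVan (basM E ι J n) _ (RM V T g) P)
  intro hinf
  have h1 := hinf (by rw [hev]; exact h0)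
  have hdet : ∀ i, (x i * (((V i g)⁻¹ : GL (Fin 2) E) : M2 E)).det = 1 := by
    intro i
    rw [Matrix.det_mul, hx i, ← Matrix.det_mul, mul_inv_val, Matrix.det_one]
  have h2 := infVan_prod (basM E ι J n) h1 _ hdet [] (by simp)
  rw [List.foldr_nil, hev] at h2
  apply hx0
  have e2 : (((fun i => x i * (((V i g)⁻¹ : GL (Fin 2) E) : M2 E), 1) : AmbM E ι n)) *
      RM V T g = (x, (fun j => (T j g : Matrix (Fin (n j)) (Fin (n j)) E))) := by
    ext1
    · funext i
      change x i * (((V i g)⁻¹ : GL (Fin 2) E) : M2 E) * (V i g : M2 E) = x i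
      rw [mul_assoc, inv_mul_val, mul_one]
    · exact one_mul _
  rw [e2] at h2
  exact h2

end Pool.Agent.Helper37.Mv
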