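import Pool.Agent.Helper37.Mv.Defs
import Pool.Agent.Helper37.Af.Defs

/-!
# Project HMV (MP_6cbef8_nt), module Ren: a relation of one `V i` is a relation of all

PLAN. Take `P` from the hypothesis and `Q = MvPolynomial.rename φ P`, `φ (inl a) = inl ⟨i, a⟩`, `φ (inr a) = inr a` (`MvPolynomial.eval_rename`; `allEntries y z ∘ φ = Af.ent (y i) z`, by cases). If `P (x, T g) ≠ 0`, `det x = det V i g`, take `y k = x` for `k = i`, `y k = V k g` otherwise (`Function.update (fun k => (V k g : _)) i x`). Use `measure_mono_null`.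
-/

set_option autoImplicit false
open MeasureTheory

namespace Pool.Agent.Helper37.Mv

open Pool.Agent.Helper37.Af

/-- the change of variables -/
private def renFun {ι J : Type*} {n : J → ℕ} (i : ι) :
    (Fin 2 × Fin 2) ⊕ (Σ j : J, Fin (n j) × Fin (n j)) → Vars ι J n
  | .inl a => .inl ⟨i, a⟩
  | .inr a => .inr a

private theorem ren_comp {E : Type*} {ι J : Type*} {n : J → ℕ}
    (x : ι → Matrix (Fin 2) (Fin 2) E) (z : ∀ j : J, Matrix (Fin (n j)) (Fin (n j)) E) (i : ι) :
    allEntries x z ∘ renFun i = ent (x i) z := by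
  funext a
  cases a <;> rfl

theorem related_single {E : Type*} [Field E] {G : Type*} [Group G] [MeasurableSpace G]
    (μ : Measure G) {ι J : Type*} {n : J → ℕ} {V : ι → G →* GL (Fin 2) E}
    {T : ∀ j, G →* GL (Fin (n j)) E} (i : ι) (h : PolynomiallyRelated μ (V i) T) :
    ∃ P : MvPolynomial (Vars ι J n) E,
      μ {g | MvPolynomial.eval (allEntries (fun i => (V i g : Matrix (Fin 2) (Fin 2) E))
        (fun j => T j g)) P = 0 ∧ NontrivialAt V T P g} ≠ 0 := by
  classical
  obtain ⟨P, hP⟩ := h
  refine ⟨MvPolynomial.rename (renFun i) P, fun h0 => hP (measure_mono_null ?_ h0)⟩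
  rintro g ⟨h1, x, hx, h2⟩
  refine ⟨?_, Function.update (fun k => (V k g : Matrix (Fin 2) (Fin 2) E)) i x, ?_, ?_⟩
  · rw [MvPolynomial.eval_rename, ren_comp]
    exact h1
  · intro k
    by_cases hk : k = i
    · subst hk
      rw [Function.update_self]
      exact hx
    · rw [Function.update_of_ne hk]
  · rw [MvPolynomial.eval_rename, ren_comp, Function.update_self]
    exact h2

end Pool.Agent.Helper37.Mv
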